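import Mathlib
import Pool.Agent.H8EM.Main
import Pool.Agent.Y1.CT.Main

/-!
# Finite generation of étale motivic cohomology in weight `d`, for products of abelian
varieties of almost all slope types of all CM fields with arbitrary varieties, over finite fields

Let `K i` (`i` in a finite set) be CM fields of degree `2 g i`. Nothing is assumed about their Galois
groups. They are pairwise independent: for `i ≠ k` and all complex embeddings `φ` of `K i` and `ψ` of
`K k` some automorphism of `ℂ` is the identity on `φ (K i)` and the complex conjugation on `ψ (K k)`
(this is no condition if there is only one field). We fix an isomorphism `ν` of the algebraic closure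
of `ℚ_p` with `ℂ`; it defines a `p`-adic valuation of `ℂ`, with the value one at `p`. Let `M i` be a
function with nonzero integral values, all of which divide `n i`, on the complex embeddings of
`K i`, invariant under complex conjugation. A CM type `Φ i` of `K i` (a choice of one element out of
each complex conjugate pair of embeddings; there are `2 ^ (g i)` types), `M i` and a real number
`κ ≠ 0` prescribe the slopes `(a + κ M) / 2` (at the embeddings in `Φ i`) and `(a - κ M) / 2` (outside
of `Φ i`) of a Weil number for `p ^ a` in `K i` (`HasType`). The case `M = 1`, `κ = a` is the case of
ordinary abelian varieties.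

There are `2 ^ (∑ i, g i)` families of CM types `Φ i` of the fields `K i`. A family is exceptional
(`exceptionalFamilies ν K M`) if the following statement (`Holds`) is false for it. Let `π i` be Weil
numbers for `q = p ^ a` that generate the fields `K i` and have the slope types `Φ i`, `M i`, and let
`f i` be monic polynomials whose complex roots are conjugates of `π i` (`IsPolyOf`), for instance the
characteristic polynomials of Frobenius of the abelian varieties in the isogeny classes of the `π i`
over the field with `q` elements. Let `A` be an abelian variety over the field with `Q = q ^ s`
elements which is isogenous to a product of powers of abelian varieties coming from the field with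
`q` elements, with characteristic polynomials `f i`. Let `Y` be **any** smooth projective variety over
the field with `Q` elements such that the Frobenius endomorphism of `Y` satisfies on the groups
`H^i(A × Y, ℤ(j))`, `j ≥ 0`, nonzero polynomials with integral coefficients whose roots are unrelated to
the fields `K i` (`FrobeniusRoots T (Unrelated K)`). This is so if the Chow motive of `Y` is
finite-dimensional in the sense of Kimura (for instance, if `Y` is dominated by a product of curves)
and the Frobenius eigenvalues on the cohomology of `Y` are unrelated to the fields `K i`: then a
multiple of a power of the characteristic polynomial of Frobenius is zero on the motive.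

A complex number `ρ ≠ 0` is unrelated to the fields `K i` (`Unrelated`) if a function `n` on the
complex embeddings of `K i` with `n (conj φ) = - n φ` which is invariant under all automorphisms of
`ℂ` that fix a power of `ρ` is zero. This is so if for each embedding `ψ` of `K i` some automorphism
which fixes a power of `ρ` is the complex conjugation on `ψ (K i)`: for instance, if a power of `ρ`
lies in a field linearly disjoint from the normal closures of the `K i`, or in a totally real field.

Let `H^i(X, ℤ(j))` be the étale motivic cohomology groups. Then, if `Y` has the dimension `d`, **the groups `H^i(A × Y, ℤ(dim A + d))`, `i ≤ 2 (dim A + d)`, of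
question 1 for `A × Y` are finitely generated if and only if the groups `H^i(Y, ℤ(d + k))`,
`i ≤ 2 (d + k)`, `0 ≤ k ≤ dim A`, are finitely generated** (`TopWeightEquiv`).

The theorem is unconditional: no Tate, Beilinson or Parshin conjecture is assumed for `Y`, and `Y` need
not belong to the class of the varieties built from products of curves, for which the groups are known
to be finitely generated (Soulé, Geisser, Morin).

The framework: the Chow ring and the ring of correspondences of `A`, with rational coefficients, and
the cohomology of `A` (with coefficients in any field of characteristic zero which contains the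
Frobenius eigenvalues), with the formal properties and the theorems of Tate on divisors and of Kimura
on the nilpotence of homologically trivial correspondences (`AbelianData`, `IsAbelian`); the Chow ring
and the correspondences with integral coefficients (`IntegralData`, `IsIntegralData`); the étale
motivic cohomology groups `H^i(Y, ℤ(j))` and `H^i(A × Y, ℤ(j))`, `i` and `j` integers, with the products
with cycles on `A`, the push-forward from `A × Y` to `Y`, the operation of the correspondences from `A`
to `A` and the Frobenius endomorphism of `Y` (`IntTheory`, `IsIntGraded`, `IsIntAction`); the Frobenius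
endomorphism of `A × Y` acts as `Q ^ j` in weight `j ≥ 0`; the subgroups of the elements annihilated by
an integer `n ≠ 0` are finite (`IsFiniteTorsion`): they are quotients of étale cohomology groups with
finite coefficients. For negative `j` the groups are, by the usual convention, those of
`ℚ / ℤ(j)[-1]` without the part at `p`; nothing is assumed about them.

The proof is the one of helper68 for Weil-étale cohomology (MP_cb388a_ag): there are products `D t` of
`c t` divisor classes on `A` with a dual system `E t` for the intersection pairing; let `π` be the
projector given by them, and `N` a number such that the `N D t` and `N E t` are integral. For a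
suitable polynomial `P` with integral coefficients the integral correspondence
`Θ = (N ^ 2 - N ^ 2 π) P (F)` is homologically trivial, so that a multiple of a power of `Θ` is zero; and
`a (F) P (F)` is multiplication by an integer `N' ≠ 0` on `H^i(A × Y, ℤ(j))`. Since `Θ` vanishes on the
image of `π`, this shows that `B m = b ∑ N D t × (N E t)_* m` for all `m` in `H^i(A × Y, ℤ(j))`, with
integers `B ≠ 0` and `b`. So the kernel of the map `m ↦ ((N E t)_* m)` from `H^i(A × Y, ℤ(j))` to the sum
of the `H^(i - 2 c t)(Y, ℤ(j - c t))` is annihilated by `B`, hence finite, and the maps `n ↦ N D t × n`
have kernels annihilated by `N ^ 2`, which are finite as well.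

The theorem bounds the number of the exceptional families: it is at most
`2 ^ (∑ i, g i) * ∑ i, C * (n i) ^ 2 * rate (K i) (g i) (q i)`, with an absolute constant `C`. Here
`q i` is any prime factor of `g i` (or `q i = 1`), and `rate K g q` is `(1 + log (2 g)) ^ 16` times
the smaller of the numbers `W (K) / √g` and `√g / q`; the second part of the theorem
(`WeightEstimate`) is `W (K) ≤ N ^ 2 * D ^ (1 / 4)`, where `N` is the number of the CM subfields of `K`
(with `K`) and `D` is the largest degree of a CM subfield of `K` that is normal over `ℚ` with a
nonabelian Galois group (`D = 1` if there are none). The number `W (K)` is `subfieldWeight K`.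
-/

set_option autoImplicit false

namespace Pool.Agent.Results.MP_b197b4_nt.AllCMTypesTimes

open NumberField Module Pool.Agent.H204R3.CM Pool.Agent.H977R3.CM Pool.Agent.TH170
  Pool.Agent.Y1.KN Pool.Agent.Y1.CT Pool.Agent.V1168.BB Pool.Agent.H8EM

/-- The conclusion `TopWeightEquiv` holds for `A × Y`, for all abelian varieties `A` whose Frobenius
eigenvalues are powers of conjugates of Weil numbers with the slope types `Φ i`, `M i`, and all `Y`
unrelated to the fields `K i`. -/
def Holds {p : ℕ} [Fact p.Prime] (ν : PadicAlgCl p ≃+* ℂ) {I : Type} (K : I → Type)
    [∀ i, Field (K i)] [∀ i, NumberField (K i)] [∀ i, IsCMField (K i)]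
    (M : ∀ i, (K i →+* ℂ) → ℤ) (Φ : ∀ i, Set (K i →+* ℂ)) : Prop :=
  ForAllTypes ν K M (fun q f => EtaleTimes (Unrelated K) q f fun T => TopWeightEquiv T) Φ

/-- The exceptional families of CM types. -/
def exceptionalFamilies {p : ℕ} [Fact p.Prime] (ν : PadicAlgCl p ≃+* ℂ) {I : Type} (K : I → Type)
    [∀ i, Field (K i)] [∀ i, NumberField (K i)] [∀ i, IsCMField (K i)]
    (M : ∀ i, (K i →+* ℂ) → ℤ) : Set (∀ i, Set (K i →+* ℂ)) :=
  {Φ | (∀ i, IsCMType (Φ i)) ∧ ¬ Holds ν K M Φ}

/-- **Question 1 for `A × Y` is equivalent to finite generation for `Y`, for the abelian
varieties `A` of almost all slope types of all CM fields and all unrelated varieties `Y`.** -/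
theorem result :
    (∃ C : ℝ, 0 ≤ C ∧ ∀ (p : ℕ) [Fact p.Prime] (ν : PadicAlgCl p ≃+* ℂ) (I : Type) [Fintype I]
      (K : I → Type) [∀ i, Field (K i)] [∀ i, NumberField (K i)] [∀ i, IsCMField (K i)]
      (M : ∀ i, (K i →+* ℂ) → ℤ) (n g q : I → ℕ), PairwiseIndep K →
      (∀ i φ, M i (ComplexEmbedding.conjugate φ) = M i φ) → (∀ i, n i ≠ 0) →
      (∀ i φ, M i φ ∣ (n i : ℤ)) → (∀ i, finrank ℚ (K i) = 2 * g i) →
      (∀ i, q i ∣ g i ∧ (q i = 1 ∨ (q i).Prime)) →
      ((exceptionalFamilies ν K M).ncard : ℝ) ≤
        2 ^ (∑ i, g i) * ∑ i, C * (n i : ℝ) ^ 2 * rate (K i) (g i) (q i)) ∧
    WeightEstimate := by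
  obtain ⟨C, hC0, hC⟩ := ncard_of_unrel
  refine ⟨⟨C, hC0, ?_⟩, weight_estimate_holds⟩
  intro p _ ν I _ K _ _ _ M n g q hind hM hn hMn hg hq
  exact hC p ν I K M n g q hind hM hn hMn hg hq _ fun Q f hQ hR => topWeight_times hQ hR

end Pool.Agent.Results.MP_b197b4_nt.AllCMTypesTimes
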