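import Mathlib
import Pool.Agent.H8EM.Main
import Pool.Agent.V1168.EF.Rel

/-!
# Finite generation of étale motivic cohomology in weight `d`, for products of arbitrary varieties with
abelian varieties, over finite fields: the exceptional factors have small dimension

Let `K i` (`i` in a set `I`, which may be **infinite**) be CM fields with pair flips (`PairFlips`): for
any two complex embeddings `φ` of `K i` and `ψ` of `K k` (with `i = k` or not) which are neither equal
nor complex conjugate, some automorphism of `ℂ` is the identity on `φ (K i)` and the complex conjugation
on `ψ (K k)`. One CM field `K` of degree `2 g` has this property if the Galois group of its normal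
closure is the largest possible one (of order `2 ^ g g!`), or contains, for each pair of complex
conjugate embeddings, an element which exchanges them and fixes all other embeddings. We fix an
isomorphism `ν` of the algebraic closure of `ℚ_p` with `ℂ`; it defines a `p`-adic valuation `v` of `ℂ`
with `v p = 1`. Let `π i` be a Weil number for `q = p ^ a` in `K i` whose slope vector, the function
`2 v (φ π) - a` on the complex embeddings `φ` (`slopeVector`), is not zero (there are no other
conditions on the slopes).

For finite subsets `J` of `I` let `f i`, `i` in `J`, be monic polynomials whose complex roots are
conjugates of `π i` (`IsPolyOf`), for instance the characteristic polynomials of Frobenius of the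
abelian varieties in the isogeny classes of the `π i` over the field with `q` elements. Let `A` be an
abelian variety over the field with `Q = q ^ s` elements which is isogenous to a product of powers of
abelian varieties coming from the field with `q` elements, with characteristic polynomials `f i`, `i`
in `J` (`IsAbelian`).

Let `Ω` be a finite set of complex numbers, stable under the automorphisms of `ℂ`, whose elements are
nonzero and lie in CM fields or in totally real fields (`IsStable`). A number `ρ` is generated by `Ω`
(`Generated p Ω`) if it is not zero and a power of it is a product of powers of elements of `Ω` and of a
power of `p`. Let `Y` be **any** smooth projective variety over the field with `Q` elements such that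
the Frobenius endomorphism of `Y` satisfies on the groups `H^i(A × Y, ℤ(j))`, `j ≥ 0`, nonzero
polynomials with integral coefficients whose roots are generated by `Ω`
(`FrobeniusRoots T (Generated p Ω)`). This is so if the Chow motive of `Y` is finite-dimensional in the
sense of Kimura (for instance, if `Y` is dominated by a product of curves) and the Frobenius
eigenvalues on the cohomology of `Y` are generated by `Ω`.

**The theorem: there is a finite subset `S` of `I` with `∑ [K i : ℚ] ≤ |Ω|`, the sum over `i` in `S`,
such that for all finite sets `J` disjoint from `S`, all `f i`, `s`, `A` and `Y` as above the
statement below is true.** The set `S` depends only on `Ω` and the `π i`. The Frobenius eigenvalues of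
`Y` are arbitrary here: they may generate the same fields `K i`, or fields containing them.

Let `H^i(X, ℤ(j))` be the étale motivic cohomology groups. Then, if `Y` has the dimension `d`, **the groups `H^i(A × Y, ℤ(dim A + d))`, `i ≤ 2 (dim A + d)`, of
question 1 for `A × Y` are finitely generated if and only if the groups `H^i(Y, ℤ(d + k))`,
`i ≤ 2 (d + k)`, `0 ≤ k ≤ dim A`, are finitely generated** (`TopWeightEquiv`).

The theorem is unconditional: no Tate, Beilinson or Parshin conjecture is assumed for `Y`, and `Y` need
not belong to the class of the varieties built from products of curves, for which the groups are known
to be finitely generated (Soulé, Geisser, Morin).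

The framework: the Chow ring and the ring of correspondences of `A`, with rational coefficients, and
the cohomology of `A` (with coefficients in any field of characteristic zero which contains the
Frobenius eigenvalues), with the formal properties and the theorems of Tate on divisors and of Kimura
on the nilpotence of homologically trivial correspondences (`AbelianData`, `IsAbelian`); the Chow ring
and the correspondences with integral coefficients (`IntegralData`, `IsIntegralData`); the étale
motivic cohomology groups `H^i(Y, ℤ(j))` and `H^i(A × Y, ℤ(j))`, `i` and `j` integers, with the products
with cycles on `A`, the push-forward from `A × Y` to `Y`, the operation of the correspondences from `A`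
to `A` and the Frobenius endomorphism of `Y` (`IntTheory`, `IsIntGraded`, `IsIntAction`); the Frobenius
endomorphism of `A × Y` acts as `Q ^ j` in weight `j ≥ 0`; the subgroups of the elements annihilated by
an integer `n ≠ 0` are finite (`IsFiniteTorsion`): they are quotients of étale cohomology groups with
finite coefficients. For negative `j` the groups are, by the usual convention, those of
`ℚ / ℤ(j)[-1]` without the part at `p`; nothing is assumed about them.

The proof is the one of helper68 for Weil-étale cohomology (MP_cb388a_ag): there are products `D t` of
`c t` divisor classes on `A` with a dual system `E t` for the intersection pairing; let `π` be the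
projector given by them, and `N` a number such that the `N D t` and `N E t` are integral. For a
suitable polynomial `P` with integral coefficients the integral correspondence
`Θ = (N ^ 2 - N ^ 2 π) P (F)` is homologically trivial, so that a multiple of a power of `Θ` is zero; and
`a (F) P (F)` is multiplication by an integer `N' ≠ 0` on `H^i(A × Y, ℤ(j))`. Since `Θ` vanishes on the
image of `π`, this shows that `B m = b ∑ N D t × (N E t)_* m` for all `m` in `H^i(A × Y, ℤ(j))`, with
integers `B ≠ 0` and `b`. So the kernel of the map `m ↦ ((N E t)_* m)` from `H^i(A × Y, ℤ(j))` to the sum
of the `H^(i - 2 c t)(Y, ℤ(j - c t))` is annihilated by `B`, hence finite, and the maps `n ↦ N D t × n`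
have kernels annihilated by `N ^ 2`, which are finite as well.

The set `S` (`V1168.EF.exists_factors` of helper68): let `x i` be the slope vectors of the `π i`. If a
product of a number `ρ` generated by `Ω` and of roots of the `f i`, no two of them complex conjugate, is
a power of `q` up to a root of unity, then, averaging valuations over automorphisms, the function
`σ ↦ x i (σ φ)` is in the space spanned by the functions `σ ↦ v (σ β) - v (conj (σ β))`, `β` in `Ω`, of
dimension at most `|Ω| / 2`, for some `i` in `J` and all embeddings `φ` of `K i`; and these functions are
linearly independent.
-/

set_option autoImplicit false

namespace Pool.Agent.Results.MP_b197b4_nt.EveryVarietyTimes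

open NumberField Pool.Agent.V1168.EF Pool.Agent.V1168.BB Pool.Agent.H8EM
open Pool.Agent.V1168.EV (PairFlips slopeVector)

/-- **Question 1 for `A × Y` is equivalent to finite generation for `Y`, for all `Y` with Frobenius
eigenvalues generated by the stable finite set `Ω` and all abelian varieties `A` given by Weil numbers in
a family of CM fields with pair flips, without factors in an exceptional set `S` with
`∑ [K i : ℚ] ≤ |Ω|`.** -/
theorem result {p : ℕ} [Fact p.Prime] (ν : PadicAlgCl p ≃+* ℂ) {I : Type}
    (K : I → Type) [∀ i, Field (K i)] [∀ i, NumberField (K i)] [∀ i, IsCMField (K i)]
    (hK : PairFlips K) (a : ℕ) (ha : 0 < a) (π : ∀ i, K i)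
    (hπ : ∀ i, π i * IsCMField.complexConj (K i) (π i) = (p : K i) ^ a)
    (hs : ∀ i, ∃ φ, slopeVector ν a (π i) φ ≠ 0) (Ω : Finset ℂ) (hΩ : IsStable Ω) :
    ∃ S : Finset I, ∑ i ∈ S, Module.finrank ℚ (K i) ≤ Ω.card ∧
      ForAllPolys π (p ^ a) S
        (fun _ q f => EtaleTimes (Generated p Ω) q f fun T => TopWeightEquiv T) := by
  obtain ⟨S, hS, h⟩ := exists_factors ν hK ha hπ hs hΩ
  exact ⟨S, hS, h _ fun J q f hq hR => topWeight_times hq hR⟩

end Pool.Agent.Results.MP_b197b4_nt.EveryVarietyTimes
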