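import Mathlib
import Pool.Agent.H8EM.Main
import Pool.Agent.V1168.EV.Rel

/-!
# Finite generation of étale motivic cohomology in weight `d`, for products of arbitrary varieties with
abelian varieties outside of finitely many lines of slope vectors, over finite fields

Let `K i` (`i` in a finite set) be CM fields with pair flips (`PairFlips`): for any two complex
embeddings `φ` of `K i` and `ψ` of `K k` (with `i = k` or not) which are neither equal nor complex
conjugate, some automorphism of `ℂ` is the identity on `φ (K i)` and the complex conjugation on
`ψ (K k)`. We fix an isomorphism `ν` of the algebraic closure of `ℚ_p` with `ℂ`; it defines a `p`-adic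
valuation `v` of `ℂ` with `v p = 1`. The slope vector of a Weil number `π` for `p ^ a` in `K i` is the
function `2 v (φ π) - a` on the complex embeddings `φ` of `K i` (`slopeVector`); it is odd.

Let `π i` be Weil numbers for `q = p ^ a` in `K i` with nonzero slope vectors, and let `f i` be monic
polynomials whose complex roots are conjugates of `π i` (`IsPolyOf`), for instance the characteristic
polynomials of Frobenius of the abelian varieties in the isogeny classes of the `π i` over the field
with `q` elements. Let `A` be an abelian variety over the field with `Q = q ^ s` elements which is
isogenous to a product of powers of abelian varieties coming from the field with `q` elements, with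
characteristic polynomials `f i` (`IsAbelian`).

A number `ρ` comes from the finite set `Ω` of complex numbers (`From p Ω`) if it is not zero and a power
of it is the product of a power of a conjugate of an element of `Ω`, or of `1`, and of a power of `p`.
Let `Y` be **any** smooth projective variety over the field with `Q` elements such that the Frobenius
endomorphism of `Y` satisfies on the groups `H^i(A × Y, ℤ(j))`, `j ≥ 0`, nonzero polynomials with
integral coefficients whose roots come from `Ω` (`FrobeniusRoots T (From p Ω)`).

**The theorem: there is a set `E` of at most `|Ω|` lines, each of them in the space of the functions on
the complex embeddings of one of the fields `K i`, such that for all `a`, all `π i` whose slope vectors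
are not on the lines in `E`, all `f i`, `s`, `A` and all `Y` as above the statement below is true.**
So for one field `K` and a given `Y` all the Weil numbers in `K` are allowed, except those whose slope
vector is a multiple of one of at most `|Ω|` vectors. The result `EveryVarietyTimes` for this problem
is about **one** family of Weil numbers (possibly in infinitely many fields). Here the fields are given,
all the Weil numbers in them are considered at the same time, and `Ω` is any finite set.

Let `H^i(X, ℤ(j))` be the étale motivic cohomology groups. Then, if `Y` has the dimension `d`, **the groups `H^i(A × Y, ℤ(dim A + d))`, `i ≤ 2 (dim A + d)`, of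
question 1 for `A × Y` are finitely generated if and only if the groups `H^i(Y, ℤ(d + k))`,
`i ≤ 2 (d + k)`, `0 ≤ k ≤ dim A`, are finitely generated** (`TopWeightEquiv`).

The theorem is unconditional: no Tate, Beilinson or Parshin conjecture is assumed for `Y`, and `Y` need
not belong to the class of the varieties built from products of curves, for which the groups are known
to be finitely generated (Soulé, Geisser, Morin).

The framework: the Chow ring and the ring of correspondences of `A`, with rational coefficients, and
the cohomology of `A` (with coefficients in any field of characteristic zero which contains the
Frobenius eigenvalues), with the formal properties and the theorems of Tate on divisors and of Kimura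
on the nilpotence of homologically trivial correspondences (`AbelianData`, `IsAbelian`); the Chow ring
and the correspondences with integral coefficients (`IntegralData`, `IsIntegralData`); the étale
motivic cohomology groups `H^i(Y, ℤ(j))` and `H^i(A × Y, ℤ(j))`, `i` and `j` integers, with the products
with cycles on `A`, the push-forward from `A × Y` to `Y`, the operation of the correspondences from `A`
to `A` and the Frobenius endomorphism of `Y` (`IntTheory`, `IsIntGraded`, `IsIntAction`); the Frobenius
endomorphism of `A × Y` acts as `Q ^ j` in weight `j ≥ 0`; the subgroups of the elements annihilated by
an integer `n ≠ 0` are finite (`IsFiniteTorsion`): they are quotients of étale cohomology groups with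
finite coefficients. For negative `j` the groups are, by the usual convention, those of
`ℚ / ℤ(j)[-1]` without the part at `p`; nothing is assumed about them.

The proof is the one of helper68 for Weil-étale cohomology (MP_cb388a_ag): there are products `D t` of
`c t` divisor classes on `A` with a dual system `E t` for the intersection pairing; let `π` be the
projector given by them, and `N` a number such that the `N D t` and `N E t` are integral. For a
suitable polynomial `P` with integral coefficients the integral correspondence
`Θ = (N ^ 2 - N ^ 2 π) P (F)` is homologically trivial, so that a multiple of a power of `Θ` is zero; and
`a (F) P (F)` is multiplication by an integer `N' ≠ 0` on `H^i(A × Y, ℤ(j))`. Since `Θ` vanishes on the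
image of `π`, this shows that `B m = b ∑ N D t × (N E t)_* m` for all `m` in `H^i(A × Y, ℤ(j))`, with
integers `B ≠ 0` and `b`. So the kernel of the map `m ↦ ((N E t)_* m)` from `H^i(A × Y, ℤ(j))` to the sum
of the `H^(i - 2 c t)(Y, ℤ(j - c t))` is annihilated by `B`, hence finite, and the maps `n ↦ N D t × n`
have kernels annihilated by `N ^ 2`, which are finite as well.

The lines (`V1168.EV.exists_lines_forall` of helper68): if a product of a number `ρ` from `Ω` and of roots
of the `f i`, no two of them complex conjugate, is a power of `q` up to a root of unity, then the slope
vector of one of the `π i` is on the line of a vector given by an element of `Ω`.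
-/

set_option autoImplicit false

namespace Pool.Agent.Results.MP_b197b4_nt.ExceptionalSlopeLines

open NumberField Pool.Agent.V1168.EV Pool.Agent.V1168.BB Pool.Agent.H8EM

/-- **Question 1 for `A × Y` is equivalent to finite generation for `Y`, for all `Y` with Frobenius
eigenvalues from the finite set `Ω` and all abelian varieties `A` given by Weil numbers in the CM fields
`K i` (with pair flips), with slope vectors outside of at most `|Ω|` lines.** -/
theorem result {p : ℕ} [Fact p.Prime] (ν : PadicAlgCl p ≃+* ℂ) {I : Type} [Finite I]
    (K : I → Type) [∀ i, Field (K i)] [∀ i, NumberField (K i)] [∀ i, IsCMField (K i)]
    (hK : PairFlips K) (Ω : Finset ℂ) :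
    ∃ E : Finset (Σ i, ((K i →+* ℂ) → ℝ)), E.card ≤ Ω.card ∧
      ForAllOutside ν K (fun q f => EtaleTimes (From p Ω) q f fun T => TopWeightEquiv T) E := by
  obtain ⟨E, hE, h⟩ := exists_lines_forall ν K hK Ω
  exact ⟨E, hE, h _ fun q f hq hR => topWeight_times hq hR⟩

end Pool.Agent.Results.MP_b197b4_nt.ExceptionalSlopeLines
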